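import Pool.Agent.W927.MT.Stm

/-!
# MT-ENUM: Borel enumeration of the neighbours in a Borel graph of bounded degree
-/

set_option autoImplicit false

open MeasureTheory Set

namespace Pool.Agent.W515.MT

open Pool.Agent.W927.MT

variable {X : Type} [MeasurableSpace X] [StandardBorelSpace X]

/-- increasing enumerations of `n + 1` points of a section -/
def T (R : Set (X × X)) (n : ℕ) : Set (X × (Fin (n + 1) → X)) :=
  {p | (∀ i, (p.1, p.2 i) ∈ R) ∧ ∀ i j, i < j →
    embeddingReal X (p.2 i) < embeddingReal X (p.2 j)}

theorem measurableSet_T {R : Set (X × X)} (hR : MeasurableSet R) (n : ℕ) :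
    MeasurableSet (T R n) := by
  have h1 : T R n = (⋂ i, {p : X × (Fin (n + 1) → X) | (p.1, p.2 i) ∈ R}) ∩
      ⋂ i, ⋂ j, {p : X × (Fin (n + 1) → X) | i < j →
        embeddingReal X (p.2 i) < embeddingReal X (p.2 j)} := by
    ext p
    simp [T]
  rw [h1]
  refine (MeasurableSet.iInter fun i => ?_).inter
    (MeasurableSet.iInter fun i => MeasurableSet.iInter fun j => ?_)
  · exact hR.preimage (measurable_fst.prodMk ((measurable_pi_apply i).comp measurable_snd))
  · by_cases hij : i < j
    · have h2 : {p : X × (Fin (n + 1) → X) | i < j →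
          embeddingReal X (p.2 i) < embeddingReal X (p.2 j)} =
          {p | embeddingReal X (p.2 i) < embeddingReal X (p.2 j)} := by
        ext p
        exact ⟨fun h => h hij, fun h _ => h⟩
      rw [h2]
      exact measurableSet_lt
        ((measurable_embeddingReal X).comp ((measurable_pi_apply i).comp measurable_snd))
        ((measurable_embeddingReal X).comp ((measurable_pi_apply j).comp measurable_snd))
    · have h2 : {p : X × (Fin (n + 1) → X) | i < j →
          embeddingReal X (p.2 i) < embeddingReal X (p.2 j)} = univ := by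
        ext p
        exact ⟨fun _ => trivial, fun _ h => absurd h hij⟩
      rw [h2]
      exact MeasurableSet.univ

theorem range_T {R : Set (X × X)} {n : ℕ} (hn : ∀ x, {y | (x, y) ∈ R}.encard ≤ (n + 1 : ℕ))
    {x : X} {y : Fin (n + 1) → X} (h : (x, y) ∈ T R n) : range y = {y | (x, y) ∈ R} := by
  have hinj : Function.Injective y := by
    intro i j hij
    by_contra hne
    rcases lt_or_gt_of_ne hne with h1 | h1
    · have := h.2 i j h1
      simp only at this
      rw [hij] at this
      exact lt_irrefl _ this
    · have := h.2 j i h1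
      simp only at this
      rw [hij] at this
      exact lt_irrefl _ this
  have hsub : range y ⊆ {y | (x, y) ∈ R} := by
    rintro _ ⟨i, rfl⟩
    exact h.1 i
  have hcard : (range y).encard = (n + 1 : ℕ) := by
    rw [← image_univ, hinj.encard_image, encard_univ, ENat.card_eq_coe_fintype_card,
      Fintype.card_fin]
  have hfin : {y | (x, y) ∈ R}.Finite := by
    apply finite_of_encard_le_coe (hn x)
  exact (hfin.subset hsub).eq_of_subset_of_encard_le hsub (by rw [hcard]; exact hn x)

theorem injOn_T {R : Set (X × X)} {n : ℕ} (hn : ∀ x, {y | (x, y) ∈ R}.encard ≤ (n + 1 : ℕ)) :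
    InjOn (Prod.fst : X × (Fin (n + 1) → X) → X) (T R n) := by
  rintro ⟨x, y⟩ hy ⟨x', y'⟩ hy' (rfl : x = x')
  have h1 : range (fun i => embeddingReal X (y i)) = range (fun i => embeddingReal X (y' i)) := by
    have h2 : ∀ y : Fin (n + 1) → X, range (fun i => embeddingReal X (y i)) =
        embeddingReal X '' range y := fun y => range_comp _ _
    rw [h2, h2, range_T hn hy, range_T hn hy']
  have h3 : StrictMono (fun i => embeddingReal X (y i)) := fun i j hij => hy.2 i j hij
  have h4 : StrictMono (fun i => embeddingReal X (y' i)) := fun i j hij => hy'.2 i j hij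
  have h5 := (StrictMono.range_inj h3 h4).1 h1
  have h6 : y = y' := by
    funext i
    exact (measurableEmbedding_embeddingReal X).injective (congrFun h5 i)
  rw [h6]

theorem exists_T {R : Set (X × X)} {n : ℕ} {x : X}
    (h : {y | (x, y) ∈ R}.encard = (n + 1 : ℕ)) : ∃ y, (x, y) ∈ T R n := by
  classical
  have hfin : {y | (x, y) ∈ R}.Finite := finite_of_encard_eq_coe h
  set F : Finset ℝ := hfin.toFinset.image (embeddingReal X) with hF
  have hFc : F.card = n + 1 := by
    rw [hF, Finset.card_image_of_injective _ (measurableEmbedding_embeddingReal X).injective]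
    have h1 := hfin.encard_eq_coe_toFinset_card
    rw [h] at h1
    exact_mod_cast h1.symm
  have h1 : ∀ i : Fin (n + 1), ∃ y, (x, y) ∈ R ∧ embeddingReal X y = F.orderEmbOfFin hFc i := by
    intro i
    have h2 : F.orderEmbOfFin hFc i ∈ hfin.toFinset.image (embeddingReal X) :=
      F.orderEmbOfFin_mem hFc i
    obtain ⟨y, hy, hy2⟩ := Finset.mem_image.1 h2
    exact ⟨y, hfin.mem_toFinset.1 hy, hy2⟩
  choose y hy1 hy2 using h1
  refine ⟨y, hy1, fun i j hij => ?_⟩
  show embeddingReal X (y i) < embeddingReal X (y j)
  rw [hy2, hy2]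
  exact (F.orderEmbOfFin hFc).strictMono hij

theorem gen (n : ℕ) : ∀ R : Set (X × X), MeasurableSet R →
    (∀ x, {y | (x, y) ∈ R}.encard ≤ (n : ℕ)) →
    ∃ g : Fin n → X → X, (∀ i, Measurable (g i)) ∧
      (∀ x y, (x, y) ∈ R → ∃ i, g i x = y) ∧ ∀ i x, g i x = x ∨ (x, g i x) ∈ R := by
  classical
  induction n with
  | zero =>
    intro R _ hn
    refine ⟨fun i => i.elim0, fun i => i.elim0, ?_, fun i => i.elim0⟩
    intro x y hxy
    have h1 := hn x
    rw [Nat.cast_zero, nonpos_iff_eq_zero, encard_eq_zero] at h1
    have h2 : y ∈ {y | (x, y) ∈ R} := hxy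
    rw [h1] at h2
    exact absurd h2 (notMem_empty y)
  | succ n ih =>
    intro R hR hn
    have hT := measurableSet_T hR n
    have hinj := injOn_T hn
    set B : Set X := Prod.fst '' T R n with hB
    have hBm : MeasurableSet B := hT.image_of_measurable_injOn measurable_fst hinj
    have hex : ∀ x, x ∈ B → ∃ y, (x, y) ∈ T R n := by
      rintro x ⟨⟨x', y⟩, hy, rfl⟩
      exact ⟨y, hy⟩
    choose! y hy using hex
    set h : X → X := fun x => if x ∈ B then y x 0 else x with hh
    have hh1 : ∀ x ∈ B, h x = y x 0 := fun x hx => if_pos hx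
    have hh2 : ∀ x, x ∉ B → h x = x := fun x hx => if_neg hx
    have hhm : Measurable h := by
      intro A hA
      have h1 : h ⁻¹' A = (Prod.fst '' (T R n ∩ {p | p.2 0 ∈ A})) ∪ (Bᶜ ∩ A) := by
        ext x
        rw [mem_preimage, mem_union, mem_inter_iff, mem_compl_iff]
        constructor
        · intro hx
          by_cases hxB : x ∈ B
          · left
            rw [hh1 x hxB] at hx
            exact ⟨(x, y x), ⟨hy x hxB, hx⟩, rfl⟩
          · right
            rw [hh2 x hxB] at hx
            exact ⟨hxB, hx⟩
        · rintro (⟨⟨x', y'⟩, ⟨h2, h3⟩, rfl⟩ | ⟨h2, h3⟩)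
          · have hxB : x' ∈ B := ⟨(x', y'), h2, rfl⟩
            have h4 := hinj h2 (hy x' hxB) rfl
            have h5 : y' = y x' := congrArg Prod.snd h4
            show h x' ∈ A
            rw [hh1 x' hxB, ← h5]
            exact h3
          · rw [hh2 x h2]
            exact h3
      rw [h1]
      refine MeasurableSet.union ?_ (hBm.compl.inter hA)
      refine MeasurableSet.image_of_measurable_injOn (hT.inter ?_) measurable_fst
        (hinj.mono inter_subset_left)
      exact hA.preimage ((measurable_pi_apply 0).comp measurable_snd)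
    set R' : Set (X × X) := R \ {p | p.1 ∈ B ∧ embeddingReal X p.2 = embeddingReal X (h p.1)}
      with hR'
    have hR'm : MeasurableSet R' := by
      refine hR.diff (MeasurableSet.inter (hBm.preimage measurable_fst) ?_)
      exact measurableSet_eq_fun ((measurable_embeddingReal X).comp measurable_snd)
        ((measurable_embeddingReal X).comp (hhm.comp measurable_fst))
    have hR'n : ∀ x, {y | (x, y) ∈ R'}.encard ≤ (n : ℕ) := by
      intro x
      by_cases hxB : x ∈ B
      · have h1 : h x ∈ {y | (x, y) ∈ R} := by
          rw [hh1 x hxB]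
          exact (hy x hxB).1 0
        have h2 : {y | (x, y) ∈ R'} = {y | (x, y) ∈ R} \ {h x} := by
          ext z
          constructor
          · rintro ⟨h3, h4⟩
            refine ⟨h3, fun h5 => h4 ⟨hxB, ?_⟩⟩
            rw [mem_singleton_iff] at h5
            show embeddingReal X z = embeddingReal X (h x)
            rw [h5]
          · rintro ⟨h3, h4⟩
            refine ⟨h3, fun h5 => h4 ?_⟩
            exact (measurableEmbedding_embeddingReal X).injective h5.2
        rw [h2]
        have h3 := encard_sdiff_singleton_add_one h1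
        have h4 := hn x
        rw [← h3, Nat.cast_add, Nat.cast_one] at h4
        exact (ENat.add_le_add_iff_right (by simp)).1 h4
      · have h1 : {y | (x, y) ∈ R'} ⊆ {y | (x, y) ∈ R} := fun z hz => hz.1
        have h2 : {y | (x, y) ∈ R}.encard ≠ (n + 1 : ℕ) := by
          intro h3
          obtain ⟨y', hy'⟩ := exists_T h3
          exact hxB ⟨(x, y'), hy', rfl⟩
        have h3 := lt_of_le_of_ne (hn x) h2
        refine (encard_le_encard h1).trans ?_
        rw [Nat.cast_add, Nat.cast_one] at h3
        exact Order.lt_add_one_iff_of_not_isMax (by simp) |>.1 h3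
    obtain ⟨g, hg1, hg2, hg3⟩ := ih R' hR'm hR'n
    refine ⟨Fin.cons h g, ?_, ?_, ?_⟩
    · intro i
      refine Fin.cases ?_ (fun i => ?_) i
      · exact hhm
      · exact hg1 i
    · intro x z hxz
      by_cases h1 : x ∈ B ∧ embeddingReal X z = embeddingReal X (h x)
      · refine ⟨0, ?_⟩
        exact ((measurableEmbedding_embeddingReal X).injective h1.2).symm
      · obtain ⟨i, hi⟩ := hg2 x z ⟨hxz, h1⟩
        exact ⟨i.succ, hi⟩
    · intro i
      refine Fin.cases ?_ (fun i => ?_) i
      · intro x
        by_cases hxB : x ∈ B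
        · right
          show (x, h x) ∈ R
          rw [hh1 x hxB]
          exact (hy x hxB).1 0
        · left
          exact hh2 x hxB
      · intro x
        rcases hg3 i x with h1 | h1
        · exact Or.inl h1
        · exact Or.inr h1.1

theorem main : S_ENUM := by
  intro X _ _ G Δ hG hd
  obtain ⟨g, h1, h2, h3⟩ := gen Δ {p : X × X | G.Adj p.1 p.2} hG (fun x => hd x)
  exact ⟨g, h1, fun x y hxy => h2 x y hxy, fun i x => h3 i x⟩

end Pool.Agent.W515.MT
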